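import Mathlib
import Pool.Agent.TH286.NF.Fin

/-!
For a residual set of frequencies `θ`, the uniquely ergodic Heisenberg nilflow of direction `(1, θ, 0)` has a
smooth time-change which is measurably non-trivial and is not weakly mixing, hence not mixing.

The definitions (Heisenberg group, nilmanifold, nilflow, time-change, measurable triviality, weak mixing,
mixing) are in `Pool.Agent.TH286.NF.Defs`.
-/

open MeasureTheory Filter Topology
open Pool.Agent.TH286.NF

namespace Pool.Agent.Results.MP_442888_an.HeisenbergNotWeakMixing

/-- **Negative answer to both questions.** For all `θ` in a residual set, the Heisenberg nilflow generated by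
the element of the Lie algebra with entries `1, θ, 0` is uniquely ergodic, this element is not central, and the
flow has a time-change `ψ` given by a positive `C^∞` function `α` which is not measurably cohomologous to a
constant, such that the flow `ψ` preserves the probability measure proportional to `α dμ` and is neither weakly
mixing nor mixing for it. -/
theorem result : ∀ᶠ θ : ℝ in residual ℝ, UniquelyErgodic (nilflow 1 θ 0) ∧ NotCentral 1 θ 0 ∧
    ∃ α : Nil → ℝ, Smooth α ∧ (∀ x, 0 < α x) ∧ ¬ MeasurablyTrivial (nilflow 1 θ 0) α ∧
      ∃ ψ : ℝ → Nil → Nil, IsTimeChange (nilflow 1 θ 0) ψ α ∧ IsFlow ψ ∧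
        (∀ t, MeasurePreserving (ψ t) (weighted α) (weighted α)) ∧
        ¬ WeaklyMixing (weighted α) ψ ∧ ¬ Mixing (weighted α) ψ :=
  Pool.Agent.TH286.NF.main

end Pool.Agent.Results.MP_442888_an.HeisenbergNotWeakMixing
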